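import Mathlib
import Pool.Agent.T2H67.SA.Main
import Pool.Agent.T2H67.SA.Ex
import Pool.Agent.H33R2.V3

/-!
# Embedding problems over Hilbertian fields: kernels built from central extensions of products of
alternating groups

`K` is any Hilbertian field of characteristic `0` (the hypothesis is that of the frozen statement
`S03429`), `F₁/K` a finite Galois extension.

* `ProperSol K F₁ E α`: the embedding problem `α : E → Gal(F₁/K)` has a proper solution over `K`.
* A weak solution of `α`: a finite Galois extension `L'/K` containing `F₁` and a homomorphism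
  `s : Gal(L'/K) → E` such that `α ∘ s` is the restriction to `F₁` (for example `L' = F₁` and `s` a
  section of `α`, when the problem is split).
* `CentAlt N`: `N / Z(N)` is isomorphic to a direct product of finitely many alternating groups `A_d`
  with `d ≥ 5`, `d ≠ 6`; if the degree `7` occurs, then `Z(N)` has no element of order `3`. The
  product may be empty: then `N` is abelian. The double cover of `A_d` satisfies `CentAlt`
  (`exists_cover` in `Pool/Agent/T2H67/SA/Ex.lean`), so do all products and central products of
  such groups.
* `Built H₀ P`: the subgroup `P` of `E` is obtained from the trivial subgroup by finitely many steps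
  `P ↦ N P`, in which `N` is a subgroup of `E` with `CentAlt N` which is normalized by `P` and by
  `H₀`.

The theorem: if `α` has a weak solution `s` and the kernel of `α` is built in this sense (with
`H₀` the image of `s`), then `α` has a proper solution. For example it is enough that the problem
is split and that `N / Z(N)` is a product of alternating groups as above for the kernel `N`.
-/

set_option autoImplicit false

open Pool.Agent.T2H67.SA (CentAlt Built)

namespace Pool.Agent.Results.MP_e9d732_al.CentralAlternating

/-- Hilbertian fields, with the words of the frozen statement `S03429`. -/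
def Hilbertian (K : Type) [Field K] : Prop :=
  ∀ (f : Polynomial (Polynomial K)), f.Monic → Irreducible f →
    (f.map (algebraMap (Polynomial K) (FractionRing (Polynomial K)))).Separable →
    ∀ g : Polynomial K, g ≠ 0 →
      ∃ a : K, g.eval a ≠ 0 ∧ Irreducible (f.map (Polynomial.evalRingHom a))

/-- The embedding problem `α : E → Gal(F₁/K)` has a proper solution over `K`. -/
def ProperSol (K F₁ E : Type) [Field K] [Field F₁] [Algebra K F₁] [Group E]
    (α : E →* (F₁ ≃ₐ[K] F₁)) : Prop :=
  ∃ (F : Type) (_ : Field F) (_ : Algebra K F) (_ : Algebra F₁ F) (_ : IsScalarTower K F₁ F)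
    (_ : FiniteDimensional K F) (_ : IsGalois K F) (γ : (F ≃ₐ[K] F) ≃* E),
    ∀ (σ : F ≃ₐ[K] F) (x : F₁), σ (algebraMap F₁ F x) = algebraMap F₁ F (α (γ σ) x)

end Pool.Agent.Results.MP_e9d732_al.CentralAlternating

open Pool.Agent.Results.MP_e9d732_al.CentralAlternating in
theorem Pool.Agent.Results.MP_e9d732_al.CentralAlternating.result :
    ∀ (K : Type) [Field K] [CharZero K], Hilbertian K →
      ∀ (F₁ : Type) [Field F₁] [Algebra K F₁] [FiniteDimensional K F₁] [IsGalois K F₁]
      (E : Type) [Group E] [Finite E] (α : E →* (F₁ ≃ₐ[K] F₁))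
      (L' : Type) [Field L'] [Algebra K L'] [FiniteDimensional K L'] [IsGalois K L']
      [Algebra F₁ L'] [IsScalarTower K F₁ L'] (s : (L' ≃ₐ[K] L') →* E),
      (∀ ρ, α (s ρ) = ρ.restrictNormal F₁) → Built s.range α.ker → ProperSol K F₁ E α := by
  intro K _ _ hK F₁ _ _ _ _ E _ _ α L' _ _ _ _ _ _ s hs h
  obtain ⟨F, i1, i2, i3, i4, i5, i6, i7, i8, γ, hγ, -⟩ :=
    Pool.Agent.T2H67.SA.built_reg K F₁ E α L' s hs h
  obtain ⟨F', j1, j2, j3, j4, j5, j6, γ', hγ'⟩ := H33.hilbert_spec K hK F₁ E α
    ⟨F, i1, i2, i3, i4, i5, i6, i7, i8, γ, hγ⟩
  exact ⟨F', j1, j2, j3, j4, j5, j6, γ', fun σ x => by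
    rw [hγ', AlgEquiv.restrictNormal_commutes]⟩
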