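import Mathlib
import Pool.Agent.T2H67.AG.Main
import Pool.Agent.H33R2.V3

/-!
# Embedding problems over Hilbertian fields: kernels without nonabelian nilpotent sections on top

`K` is any Hilbertian field, of any characteristic (the hypothesis is that of the frozen statement
`S03429`), `F₁/K` a finite Galois extension.

* `ProperSol K F₁ E α`: the embedding problem `α : E → Gal(F₁/K)` has a proper solution over `K`.
* A weak solution of `α`: a finite Galois extension `L'/K` containing `F₁` and a homomorphism
  `s : Gal(L'/K) → E` such that `α ∘ s` is the restriction to `F₁` (for example `L' = F₁` and `s` a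
  section of `α`, when the problem is split).
* `Factor K T` (file `Pool/Agent/T2H67/AG/PKDef.lean`): the simple group `T` is an alternating group
  of degree `d ≥ 5`, `d ≠ 6`, and `K` has characteristic `0`, or it belongs to the class
  `Pool.Agent.Y60.DCF.Factor p` (groups of order `p` and many simple groups of Lie type in
  characteristic `p`) and `K` has characteristic `p > 0`.
* `Peelable K H`: the smallest class of groups which contains the commutative groups and contains
  `H` whenever it contains `H / [T, M]`, for characteristic subgroups `T ≤ M` of `H` with `T`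
  commutative and of order prime to the index of `T` in `M`, or `H / A`, for a characteristic
  subgroup `A` of `H` all of whose composition factors `T` satisfy `Factor K T`.
* `DerivedCond K H`: for some `n` all composition factors `T` of the term `H⁽ⁿ⁾` of the derived
  series of `H` satisfy `Factor K T` (for example `H⁽ⁿ⁾ = 1`), and for `i + 1 < n` and `D = H⁽ⁱ⁾` all
  prime divisors of the index of `[[D, D], D]` in `[D, D]` are zero in `K`.
* `SylowCond K H`: `H` is solvable and the Sylow subgroups of `H` are commutative, for all primes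
  which are not zero in `K`.

The theorem: if `α` has a weak solution and `Peelable K (ker α)` then `α` has a proper solution;
and the finite groups `H` with `DerivedCond K H` or `SylowCond K H` satisfy `Peelable K H`.
-/

set_option autoImplicit false

open scoped commutatorElement
open Pool.Agent.Y60.DC (CompIn)
open Pool.Agent.T2H67.AG (Peelable Factor)

namespace Pool.Agent.Results.MP_e9d732_al.DerivedSeries

/-- Hilbertian fields, with the words of the frozen statement `S03429`. -/
def Hilbertian (K : Type) [Field K] : Prop :=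
  ∀ (f : Polynomial (Polynomial K)), f.Monic → Irreducible f →
    (f.map (algebraMap (Polynomial K) (FractionRing (Polynomial K)))).Separable →
    ∀ g : Polynomial K, g ≠ 0 →
      ∃ a : K, g.eval a ≠ 0 ∧ Irreducible (f.map (Polynomial.evalRingHom a))

/-- The embedding problem `α : E → Gal(F₁/K)` has a proper solution over `K`. -/
def ProperSol (K F₁ E : Type) [Field K] [Field F₁] [Algebra K F₁] [Group E]
    (α : E →* (F₁ ≃ₐ[K] F₁)) : Prop :=
  ∃ (F : Type) (_ : Field F) (_ : Algebra K F) (_ : Algebra F₁ F) (_ : IsScalarTower K F₁ F)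
    (_ : FiniteDimensional K F) (_ : IsGalois K F) (γ : (F ≃ₐ[K] F) ≃* E),
    ∀ (σ : F ≃ₐ[K] F) (x : F₁), σ (algebraMap F₁ F x) = algebraMap F₁ F (α (γ σ) x)

/-- The condition on the derived series of `H`. -/
def DerivedCond (K : Type) [Field K] (H : Type) [Group H] : Prop :=
  ∃ n : ℕ, CompIn (Factor K) (derivedSeries H n) ∧
    ∀ i, i + 1 < n → ∀ ℓ : ℕ, ℓ.Prime →
      ℓ ∣ (⁅derivedSeries H (i + 1), derivedSeries H i⁆).relIndex (derivedSeries H (i + 1)) →
      (ℓ : K) = 0

/-- The condition on the Sylow subgroups of `H`. -/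
def SylowCond (K : Type) [Field K] (H : Type) [Group H] : Prop :=
  Group.IsSolvable H ∧ ∀ ℓ : ℕ, ℓ.Prime → (ℓ : K) ≠ 0 → ∀ P : Sylow ℓ H,
    ∀ x ∈ P, ∀ y ∈ P, x * y = y * x

end Pool.Agent.Results.MP_e9d732_al.DerivedSeries

open Pool.Agent.Results.MP_e9d732_al.DerivedSeries in
theorem Pool.Agent.Results.MP_e9d732_al.DerivedSeries.result :
    ∀ (K : Type) [Field K],
      (Hilbertian K → ∀ (F₁ : Type) [Field F₁] [Algebra K F₁] [FiniteDimensional K F₁]
        [IsGalois K F₁] (E : Type) [Group E] [Finite E] (α : E →* (F₁ ≃ₐ[K] F₁))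
        (L' : Type) [Field L'] [Algebra K L'] [FiniteDimensional K L'] [IsGalois K L']
        [Algebra F₁ L'] [IsScalarTower K F₁ L'] (s : (L' ≃ₐ[K] L') →* E),
        (∀ ρ, α (s ρ) = ρ.restrictNormal F₁) → Peelable K α.ker → ProperSol K F₁ E α) ∧
      (∀ (H : Type) [Group H] [Finite H], DerivedCond K H ∨ SylowCond K H → Peelable K H) := by
  intro K _
  refine ⟨?_, ?_⟩
  · intro hK F₁ _ _ _ _ E _ _ α L' _ _ _ _ _ _ s hs h
    obtain ⟨F, i1, i2, i3, i4, i5, i6, i7, i8, γ, hγ, -⟩ :=
      Pool.Agent.T2H67.AG.peelable_reg K F₁ E α L' s hs h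
    obtain ⟨F', j1, j2, j3, j4, j5, j6, γ', hγ'⟩ := H33.hilbert_spec K hK F₁ E α
      ⟨F, i1, i2, i3, i4, i5, i6, i7, i8, γ, hγ⟩
    exact ⟨F', j1, j2, j3, j4, j5, j6, γ', fun σ x => by
      rw [hγ', AlgEquiv.restrictNormal_commutes]⟩
  · rintro H _ _ (⟨n, hn, h⟩ | ⟨hsol, h⟩)
    · exact Pool.Agent.T2H67.AG.peelable_of_index K H n hn h
    · exact Pool.Agent.T2H67.AG.peelable_of_sylow K H h
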