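import Mathlib
import Pool.Agent.T2H69.MB.Fin

/-!
# Towers of embedding problems with planar actions over Hilbertian fields

`PCls K` (file `Pool/Agent/T2H69/MB/ClsDef.lean`) is the smallest class of homomorphisms
`p : W' → W` of groups which contains

* the projections `A^n ⋊ W → W`, where `W` acts through any homomorphism `W → B ≀ S_n` and a planar
  action of the group `B` on the finite group `A`; planar means that for some ample subfield `k` of
  `K` of characteristic `0` with a primitive root of unity of order `exp(A)` there is a
  representation `ρ : B → GL₂(k)` such that the elements `b` with scalar `ρ b` act trivially on `A`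
  (for instance: `k` algebraically closed and `B` cyclic, dihedral of order `2 m` with `m` odd, or a
  binary polyhedral group whose centre acts trivially on `A`),
* the class `Cls K` of `Pool/Agent/TH444/TW/ClsDef.lean`: the split epimorphisms with finite
  abelian kernel; the projections `A^n ⋊ W → W`, `A` the group of a regular Galois extension of
  `K(t)`, `W` acting through any homomorphism `W → A ≀ S_n`; the twisted wreath products
  `(G ≀ S_m)^n ⋊ W → W` with `m` large; the epimorphisms with kernel a product of certain wreath
  products `G ≀ S_m`,

and which is closed under composition and under quotients (`p ∘ q` in the class, `q` surjective,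
then `p` in the class). So the classes for the two kinds of steps may be mixed.

The theorem: let `K` be a Hilbertian field of any characteristic (the hypothesis is that of the
frozen statement `S03429`), `L` a finite Galois extension of `K` and
`Gal(L/K) = W 0 ← W 1 ← W 2 ← ...` a sequence of homomorphisms in the class. Then the embedding
problem given by `L/K` and the projection of the inverse limit of the `W i` to `Gal(L/K)` has a
proper solution over `K`. (For a single embedding problem take all `W (i + 1) → W i`, `i ≥ 1`,
to be identities.)
-/

set_option autoImplicit false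

open H69MB

namespace Pool.Agent.Results.MP_e9d732_al.PlanarTowers

/-- `K` is Hilbertian (the hypothesis of the frozen statement `S03429`). -/
def IsHilbertian (K : Type) [Field K] : Prop :=
  ∀ (f : Polynomial (Polynomial K)), f.Monic → Irreducible f →
    (f.map (algebraMap (Polynomial K) (FractionRing (Polynomial K)))).Separable →
    ∀ g : Polynomial K, g ≠ 0 →
      ∃ a : K, g.eval a ≠ 0 ∧ Irreducible (f.map (Polynomial.evalRingHom a))

/-- The inverse limit of the sequence `W 0 ← W 1 ← W 2 ← ...`: the group of all sequences `x` with
`p i (x (i + 1)) = x i`. -/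
abbrev InvLim {W : ℕ → Type} [∀ i, Group (W i)] (p : ∀ i, W (i + 1) →* W i) : Subgroup (∀ i, W i) :=
  Pool.Agent.TH15.IGP.Lim p

/-- The defining property of the inverse limit. -/
theorem mem_invLim {W : ℕ → Type} [∀ i, Group (W i)] (p : ∀ i, W (i + 1) →* W i)
    (x : ∀ i, W i) : x ∈ InvLim p ↔ ∀ i, p i (x (i + 1)) = x i := Iff.rfl

/-- The embedding problem over `K` given by the finite Galois extension `L` of `K` and the
projection `x ↦ e₀ (x 0)` of the inverse limit of the `W i` to `Gal(L/K)` has a proper solution:
there are a Galois extension `F` of `K` containing `L` and an isomorphism `γ` of `Gal(F/K)` with the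
inverse limit, all of whose components are continuous, such that every `σ` acts on `L` as
`e₀ (component of γ σ in W 0)`. -/
def HasProperTower (K L : Type) [Field K] [Field L] [Algebra K L] {W : ℕ → Type}
    [∀ i, Group (W i)] (p : ∀ i, W (i + 1) →* W i) (e₀ : W 0 ≃* (L ≃ₐ[K] L)) : Prop :=
  ∃ (F : Type) (_ : Field F) (_ : Algebra K F) (_ : Algebra L F) (_ : IsScalarTower K L F)
    (_ : IsGalois K F) (γ : (F ≃ₐ[K] F) ≃* InvLim p),
    (∀ i, IsOpen {σ : F ≃ₐ[K] F | (γ σ).1 i = 1}) ∧
    ∀ (σ : F ≃ₐ[K] F) (x : L), σ (algebraMap L F x) = algebraMap L F (e₀ ((γ σ).1 0) x)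

theorem result :
    ∀ (K L : Type) [Field K] [Field L] [Algebra K L] [FiniteDimensional K L] [IsGalois K L]
      (W : ℕ → Type) [∀ i, Group (W i)] (e₀ : W 0 ≃* (L ≃ₐ[K] L))
      (p : ∀ i, W (i + 1) →* W i), IsHilbertian K → (∀ i, PCls K (p i)) →
      HasProperTower K L p e₀ := by
  intro K L _ _ _ _ _ W _ e₀ p hK hp
  exact pcls_hilb hK W p hp L e₀

end Pool.Agent.Results.MP_e9d732_al.PlanarTowers
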