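import Mathlib
import Pool.Agent.T2H69.MB.Single

/-!
# Embedding problems with two-dimensional Galois action over Hilbertian fields

Let `k` be an ample field of characteristic `0`, `K` a Hilbertian field containing `k`, `L/K` a
finite Galois extension, `α : G → Gal(L/K)` a homomorphism of finite groups, `L' ⊇ L` finite Galois
over `K` and `s : Gal(L'/K) → G` a weak solution (`α ∘ s` is the restriction; for a split embedding
problem one can take `L' = L` and a section, or any `L'` and a section composed with the
restriction); let `k` contain a primitive root of unity of order `exp(ker α)` (for example, `k`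
algebraically closed). Let `ρ : Gal(L'/K) → GL₂(k)` be a two-dimensional projective representation
such that the elements `τ` with scalar `ρ τ` act trivially on the kernel of `α` (through `s`). Suppose
that one of the following holds:

* `ρ` is a representation, that is, a homomorphism;
* every ternary quadratic form over `K` is isotropic;
* `k` is algebraically closed and `K` has transcendence degree at most `1` over `k`;
* the projective line over `L'` twisted by `ρ` has a point.

Then `α` has a proper solution over `K`.

There is no condition on the kernel of `α` and, besides `k ⊆ K`, no condition on the Hilbertian field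
`K`; in general `K` is not ample. If `k` is algebraically closed, the hypothesis is satisfied for
every split `α` if `Gal(L/K)` is dihedral of order `2 m` with `m` odd.

The Hilbertian property is the hypothesis of the frozen statement `S03429`. The solution is obtained
by specialisation from a regular solution over `K(t)`.
-/

set_option autoImplicit false

open H69MB

namespace Pool.Agent.Results.MP_e9d732_al.TwoDimensional

/-- `K` is Hilbertian (the hypothesis of the frozen statement `S03429`). -/
def IsHilbertian (K : Type) [Field K] : Prop :=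
  ∀ (f : Polynomial (Polynomial K)), f.Monic → Irreducible f →
    (f.map (algebraMap (Polynomial K) (FractionRing (Polynomial K)))).Separable →
    ∀ g : Polynomial K, g ≠ 0 →
      ∃ a : K, g.eval a ≠ 0 ∧ Irreducible (f.map (Polynomial.evalRingHom a))

/-- `α : G → Gal(L/K)` has a proper solution: there is a finite Galois extension `F` of `K` which
contains `L`, with an isomorphism `γ : Gal(F/K) ≅ G` such that `α ∘ γ` is the restriction
(as in the frozen statement `S03429`). -/
def HasProperSolution {K L G : Type} [Field K] [Field L] [Algebra K L] [IsGalois K L] [Group G]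
    (α : G →* (L ≃ₐ[K] L)) : Prop :=
  ∃ (F : Type) (_ : Field F) (_ : Algebra K F) (_ : Algebra L F) (_ : IsScalarTower K L F),
    FiniteDimensional K F ∧ IsGalois K F ∧
    ∃ γ : (F ≃ₐ[K] F) ≃* G, ∀ σ : F ≃ₐ[K] F, α (γ σ) = σ.restrictNormal L

/-- `s : Gal(L'/K) → G` is a weak solution of `α : G → Gal(L/K)`: `α (s τ)` is the restriction of
`τ` to `L`. -/
def IsWeakSolution {K L L' G : Type} [Field K] [Field L] [Algebra K L] [IsGalois K L] [Field L']
    [Algebra K L'] [Algebra L L'] [IsScalarTower K L L'] [Group G] (α : G →* (L ≃ₐ[K] L))
    (s : (L' ≃ₐ[K] L') →* G) : Prop :=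
  ∀ τ : L' ≃ₐ[K] L', α (s τ) = τ.restrictNormal L

/-- The elements `τ` of `Gal(L'/K)` with scalar `ρ τ` act trivially on the kernel of `α`: the
element `s τ` commutes with all elements of the kernel. -/
def ScalarsActTrivially {k K L L' G : Type} [Field k] [Field K] [Field L] [Algebra K L]
    [Field L'] [Algebra K L'] [Group G] (α : G →* (L ≃ₐ[K] L)) (s : (L' ≃ₐ[K] L') →* G)
    (ρ : (L' ≃ₐ[K] L') → Matrix.GeneralLinearGroup (Fin 2) k) : Prop :=
  ∀ τ : L' ≃ₐ[K] L', IsScalar (ρ τ) → ∀ g : G, α g = 1 → s τ * g = g * s τ

/-- `K` has transcendence degree at most `1` over `k`: it is algebraic over `k(x)` for some `x`. -/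
def TrdegLeOne (k K : Type) [Field k] [Field K] [Algebra k K] : Prop :=
  ∃ x : K, ∀ y : K, IsAlgebraic (IntermediateField.adjoin k {x}) y

theorem result :
    ∀ (k K L L' G : Type) [Field k] [CharZero k] [Field K] [Algebra k K] [Field L] [Algebra K L]
      [FiniteDimensional K L] [IsGalois K L] [Field L'] [Algebra K L'] [FiniteDimensional K L']
      [IsGalois K L'] [Algebra L L'] [IsScalarTower K L L'] [Group G] [Finite G]
      (α : G →* (L ≃ₐ[K] L)) (s : (L' ≃ₐ[K] L') →* G)
      (ρ : (L' ≃ₐ[K] L') → Matrix.GeneralLinearGroup (Fin 2) k) (ζ : k),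
      IsHilbertian K → IsAmple k → IsPrimitiveRoot ζ (Monoid.exponent α.ker) →
      IsWeakSolution α s → IsProjRep ρ → ScalarsActTrivially α s ρ →
      ((∀ σ τ, ρ (σ * τ) = ρ σ * ρ τ) ∨ Iso3 K ∨ (IsAlgClosed k ∧ TrdegLeOne k K) ∨
        ∃ w : L', IsPoint ρ w) →
      HasProperSolution α := by
  intro k K L L' G _ _ _ _ _ _ _ _ _ _ _ _ _ _ _ _ α s ρ ζ hK hk hζ hs hproj hρ h
  refine single_hilb k K L L' G hK hk α s hs ζ hζ ρ hproj hρ ?_
  rcases h with h | h | h | h
  · exact exists_point ρ hproj (Or.inl h)
  · exact exists_point ρ hproj (Or.inr (Or.inl h))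
  · exact exists_point ρ hproj (Or.inr (Or.inr h))
  · exact h

end Pool.Agent.Results.MP_e9d732_al.TwoDimensional
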